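import Pool.Agent.Helper41.SQC.Goals

/-!
Packet SQC-CLF: the first closure (project SQ stage C, captain helper41).
-/

set_option autoImplicit false
set_option maxHeartbeats 400000

namespace Pool.Agent.Helper48.SQC

noncomputable section

open Matrix Pool.Agent.Helper19.SQ Pool.Agent.Helper34.SQ Pool.Agent.Helper41.SQ
  Pool.Agent.Helper4.SQ Pool.Agent.Helper41.SQC

variable {N l : ℕ} {q : ℂ} {B : Type} [CommRing B] [Algebra ℂ B]

/-- the deformed module as an algebra map on the free algebra. -/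
def RV (V : VD N l q) (p : Pr B) (lam : Fin (N + 1) → ZMod l) :
    FB B →ₐ[B] Matrix (Fin (N + 1) × EX N l) (Fin (N + 1) × EX N l) B :=
  ((Matrix.compAlgEquiv (Fin (N + 1)) (EX N l) B B).toAlgHom.comp
    ((rep V p lam).mapMatrix (m := Fin (N + 1)))).comp (dlB N l q p)

theorem RV_apply (V : VD N l q) (p : Pr B) (lam : Fin (N + 1) → ZMod l) (a : FB B)
    (x y : Fin (N + 1) × EX N l) :
    RV V p lam a x y = rep V p lam (dlB N l q p a x.1 y.1) x.2 y.2 := rfl

theorem rep_E (V : VD N l q) (p : Pr B) (lam : Fin (N + 1) → ZMod l) (k : ℕ) :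
    rep V p lam (xE B k) = zE V p.t p.t' lam k := by
  unfold rep xE
  rw [FreeAlgebra.lift_ι_apply]
  rfl

theorem rep_F (V : VD N l q) (p : Pr B) (lam : Fin (N + 1) → ZMod l) (k : ℕ) :
    rep V p lam (xF B k) = zF N l q B k := by
  unfold rep xF
  rw [FreeAlgebra.lift_ι_apply]
  rfl

theorem rep_K (V : VD N l q) (p : Pr B) (lam : Fin (N + 1) → ZMod l) (k : ℕ) :
    rep V p lam (xK B k) = zK q B lam k := by
  unfold rep xK
  rw [FreeAlgebra.lift_ι_apply]
  rfl

theorem rep_smul (V : VD N l q) (p : Pr B) (lam : Fin (N + 1) → ZMod l) (c : ℂ) (a : FB B) :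
    rep V p lam (c • a) = c • rep V p lam a := (rep V p lam).toLinearMap.map_smul_of_tower c a

theorem dlB_E (p : Pr B) (k : ℕ) : dlB N l q p (xE B k) = dE N q (xE B) k := by
  unfold dlB xE
  rw [FreeAlgebra.lift_ι_apply]
  rfl

theorem dlB_F (p : Pr B) (k : ℕ) : dlB N l q p (xF B k)
    = dFt N l (fun k => algebraMap B (FB B) (p.t' k)) (xF B) (xK B) k := by
  unfold dlB xF
  rw [FreeAlgebra.lift_ι_apply]
  rfl

theorem dlB_K (p : Pr B) (k : ℕ) : dlB N l q p (xK B k) = dK N q (xK B) k := by
  unfold dlB xK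
  rw [FreeAlgebra.lift_ι_apply]
  rfl

theorem RV_E (V : VD N l q) (p : Pr B) (lam : Fin (N + 1) → ZMod l) (k : ℕ) :
    RV V p lam (xE B k) = vzE V p.t p.t' lam k := by
  ext x y
  rw [RV_apply, dlB_E]
  unfold vzE
  rw [Matrix.comp_apply]
  unfold dE
  simp only [Matrix.of_apply, map_add]
  rw [apply_ite (rep V p lam), apply_ite (rep V p lam), rep_smul, rep_E, map_zero, map_one]

theorem RV_F (V : VD N l q) (p : Pr B) (lam : Fin (N + 1) → ZMod l) (k : ℕ) :
    RV V p lam (xF B k) = vzF q p.t' lam k := by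
  ext x y
  rw [RV_apply, dlB_F]
  unfold vzF
  rw [Matrix.comp_apply]
  unfold dFt ki
  simp only [Matrix.of_apply, map_add]
  rw [apply_ite (rep V p lam), apply_ite (rep V p lam), rep_F, map_zero, map_mul, map_mul, map_pow,
    rep_K, rep_K, AlgHom.commutes]

theorem RV_K (V : VD N l q) (p : Pr B) (lam : Fin (N + 1) → ZMod l) (k : ℕ) :
    RV V p lam (xK B k) = vzK q B lam k := by
  ext x y
  rw [RV_apply, dlB_K]
  unfold vzK
  rw [Matrix.comp_apply]
  unfold dK
  simp only [Matrix.of_apply]
  rw [apply_ite (rep V p lam), rep_smul, rep_K, map_zero]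

/-- the block triangular form. -/
def TT (V : VD N l q) (p : Pr B) (lam : Fin (N + 1) → ZMod l) :
    FB B →ₐ[B] Matrix (Fin (N + 1) × EX N l) (Fin (N + 1) × EX N l) B :=
  FreeAlgebra.lift B (genVal
    (fun k => bdg (fun j => zE V p.t p.t' (addE lam j) k) + offd N l B k)
    (fun k => bdg (fun _ : Fin (N + 1) => zF N l q B k))
    (fun k => bdg (fun j : Fin (N + 1) => zK q B (addE lam j) k)))

theorem TT_E (V : VD N l q) (p : Pr B) (lam : Fin (N + 1) → ZMod l) (k : ℕ) :
    TT V p lam (xE B k) = bdg (fun j => zE V p.t p.t' (addE lam j) k) + offd N l B k := by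
  unfold TT xE
  rw [FreeAlgebra.lift_ι_apply]
  rfl

theorem TT_F (V : VD N l q) (p : Pr B) (lam : Fin (N + 1) → ZMod l) (k : ℕ) :
    TT V p lam (xF B k) = bdg (fun _ : Fin (N + 1) => zF N l q B k) := by
  unfold TT xF
  rw [FreeAlgebra.lift_ι_apply]
  rfl

theorem TT_K (V : VD N l q) (p : Pr B) (lam : Fin (N + 1) → ZMod l) (k : ℕ) :
    TT V p lam (xK B k) = bdg (fun j : Fin (N + 1) => zK q B (addE lam j) k) := by
  unfold TT xK
  rw [FreeAlgebra.lift_ι_apply]
  rfl

-- induction on the free algebra, over `B`.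
omit [Algebra ℂ B] in
theorem FB_induction {P : FB B → Prop} (hc : ∀ b, P (algebraMap B (FB B) b))
    (hE : ∀ k, P (xE B k)) (hF : ∀ k, P (xF B k)) (hK : ∀ k, P (xK B k))
    (hadd : ∀ a b, P a → P b → P (a + b)) (hmul : ∀ a b, P a → P b → P (a * b)) (a : FB B) :
    P a := by
  induction a using FreeAlgebra.induction with
  | grade0 r => exact hc r
  | grade1 g =>
    cases g with
    | E i => exact hE i
    | F i => exact hF i
    | K i => exact hK i
  | mul a b ha hb => exact hmul _ _ ha hb
  | add a b ha hb => exact hadd _ _ ha hb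

theorem step1 [NeZero l] (hGD : S_GD) (D : Dl N l q) (hp : Par N l q) (V : VD N l q) (p : Pr B)
    (lam : Fin (N + 1) → ZMod l) (a : FB B) :
    RV V p lam a * Gd q p.t' lam = Gd q p.t' lam * TT V p lam a := by
  induction a using FB_induction with
  | hc b =>
    rw [AlgHom.commutes, AlgHom.commutes]
    exact Algebra.commutes b _
  | hE k => rw [RV_E, TT_E]; exact (hGD N l q D hp V B p.t p.t' p.tt lam k).1
  | hF k => rw [RV_F, TT_F]; exact (hGD N l q D hp V B p.t p.t' p.tt lam k).2.1
  | hK k => rw [RV_K, TT_K]; exact (hGD N l q D hp V B p.t p.t' p.tt lam k).2.2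
  | hadd a b ha hb => rw [map_add, map_add, add_mul, mul_add, ha, hb]
  | hmul a b ha hb => rw [map_mul, map_mul, mul_assoc, hb, ← mul_assoc, ha, mul_assoc]

theorem step2 (V : VD N l q) (p : Pr B) (lam : Fin (N + 1) → ZMod l) (a : FB B) :
    (∀ x y : Fin (N + 1) × EX N l, y.1 < x.1 → TT V p lam a x y = 0) ∧
    (∀ (j : Fin (N + 1)) (b c : EX N l), TT V p lam a (j, b) (j, c)
      = rep V p (addE lam j) a b c) := by
  induction a using FB_induction with
  | hc r =>
    constructor
    · intro x y hxy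
      rw [AlgHom.commutes, Matrix.algebraMap_matrix_apply, if_neg]
      rintro rfl
      exact lt_irrefl _ hxy
    · intro j b c
      rw [AlgHom.commutes, AlgHom.commutes, Matrix.algebraMap_matrix_apply,
        Matrix.algebraMap_matrix_apply]
      by_cases h : b = c
      · subst h; simp
      · rw [if_neg h, if_neg]
        intro h'
        exact h (Prod.mk.inj h').2
  | hE k =>
    constructor
    · intro x y hxy
      rw [TT_E, Matrix.add_apply]
      unfold bdg offd
      rw [Matrix.of_apply, Matrix.of_apply, if_neg (ne_of_gt hxy), if_neg, add_zero]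
      rintro ⟨h1, h2, -⟩
      have : (y.1 : ℕ) < x.1 := hxy
      omega
    · intro j b c
      rw [TT_E, Matrix.add_apply, rep_E]
      unfold bdg offd
      rw [Matrix.of_apply, Matrix.of_apply, if_pos rfl, if_neg, add_zero]
      rintro ⟨h1, h2, -⟩
      simp only at h1 h2
      omega
  | hF k =>
    constructor
    · intro x y hxy
      rw [TT_F]
      unfold bdg
      rw [Matrix.of_apply, if_neg (ne_of_gt hxy)]
    · intro j b c
      rw [TT_F, rep_F]
      unfold bdg
      rw [Matrix.of_apply, if_pos rfl]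
  | hK k =>
    constructor
    · intro x y hxy
      rw [TT_K]
      unfold bdg
      rw [Matrix.of_apply, if_neg (ne_of_gt hxy)]
    · intro j b c
      rw [TT_K, rep_K]
      unfold bdg
      rw [Matrix.of_apply, if_pos rfl]
  | hadd a b ha hb =>
    constructor
    · intro x y hxy
      rw [map_add, Matrix.add_apply, ha.1 x y hxy, hb.1 x y hxy, add_zero]
    · intro j b' c
      rw [map_add, map_add, Matrix.add_apply, Matrix.add_apply, ha.2, hb.2]
  | hmul a b ha hb =>
    constructor
    · intro x y hxy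
      rw [map_mul, Matrix.mul_apply]
      refine Finset.sum_eq_zero fun z _ => ?_
      by_cases h : z.1 < x.1
      · rw [ha.1 x z h, zero_mul]
      · rw [hb.1 z y (lt_of_lt_of_le hxy (not_lt.1 h)), mul_zero]
    · intro j b' c
      rw [map_mul, map_mul, Matrix.mul_apply, Matrix.mul_apply, Fintype.sum_prod_type,
        Finset.sum_eq_single j]
      · exact Finset.sum_congr rfl fun e _ => by rw [ha.2, hb.2]
      · intro i _ hij
        refine Finset.sum_eq_zero fun e _ => ?_
        rcases lt_or_gt_of_ne hij with h | h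
        · rw [ha.1 (j, b') (i, e) h, zero_mul]
        · rw [hb.1 (i, e) (j, c) h, mul_zero]
      · intro h
        exact absurd (Finset.mem_univ j) h

/-- the twist on the tensor product. -/
def Tw (N l : ℕ) (p : Pr B) : Matrix (Fin (N + 1) × EX N l) (Fin (N + 1) × EX N l) B :=
  Matrix.diagonal fun z : Fin (N + 1) × EX N l => p.s z.1 * thE p z.2

omit [Algebra ℂ B] in
theorem trace_mul_diag {ι : Type} [Fintype ι] [DecidableEq ι] (M : Matrix ι ι B) (d : ι → B) :
    Matrix.trace (M * Matrix.diagonal d) = ∑ i, M i i * d i := by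
  rw [Matrix.trace]
  refine Finset.sum_congr rfl fun i _ => ?_
  rw [Matrix.diag_apply, Matrix.mul_diagonal]

theorem step3 (V : VD N l q) (p : Pr B) (lam : Fin (N + 1) → ZMod l) (a : FB B) :
    Matrix.trace (rep V p lam (fB N l q p a) * Thm N l p)
      = Matrix.trace (RV V p lam a * Tw N l p) := by
  have h1 : fB N l q p a = ∑ i : Fin (N + 1), p.s i • dlB N l q p a i i := rfl
  rw [h1, map_sum, Finset.sum_mul, Matrix.trace_sum]
  unfold Tw Thm
  rw [trace_mul_diag, Fintype.sum_prod_type]
  refine Finset.sum_congr rfl fun i _ => ?_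
  rw [map_smul, smul_mul_assoc, Matrix.trace_smul, trace_mul_diag, Finset.smul_sum]
  refine Finset.sum_congr rfl fun b _ => ?_
  rw [RV_apply, smul_eq_mul]
  ring

theorem step4 (V : VD N l q) (p : Pr B) (lam : Fin (N + 1) → ZMod l) (a : FB B) :
    Matrix.trace (TT V p lam a * Tw N l p)
      = ∑ j : Fin (N + 1), p.s j * Matrix.trace (rep V p (addE lam j) a * Thm N l p) := by
  unfold Tw Thm
  rw [trace_mul_diag, Fintype.sum_prod_type]
  refine Finset.sum_congr rfl fun j _ => ?_
  rw [trace_mul_diag, Finset.mul_sum]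
  refine Finset.sum_congr rfl fun b _ => ?_
  rw [(step2 V p lam a).2 j b b]
  ring

theorem lamOf_addE (x : Fin (N + 1) → ZMod l) (j : Fin (N + 1)) :
    lamOf (addE x j) = addE (lamOf x) j := by
  funext i
  unfold lamOf addE
  ring

theorem aug_t' (aug : B →ₐ[ℂ] ℂ) (p : Pr B) (h : ∀ j, aug (p.κ j) = 1) (k : ℕ) :
    aug (p.t' k) = 1 := by
  have h1 : aug (p.κi k) = 1 := by
    have := congrArg aug (p.κκ k)
    rwa [map_mul, h, one_mul, map_one] at this
  unfold Pr.t'
  rw [map_mul, h1, h, one_mul]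

theorem c_clf (hGD : S_GD) (hGID : S_GID) (hTHV : S_THV) : Pool.Agent.Helper41.SQC.S_CLF := by
  intro N l _ q D hp V B _ _ aug haug p hκ a
  funext x
  have e1 := step1 hGD D hp V p (lamOf x) a
  have e2 : Tw N l p * Gd q p.t' (lamOf x) = Gd q p.t' (lamOf x) * Tw N l p :=
    (hTHV N l q hp B p p.t' (lamOf x)).1
  have hu := hGID N l q D hp V B aug haug p.t' (aug_t' aug p hκ) (lamOf x)
  have hinv := Matrix.mul_nonsing_inv (Gd q p.t' (lamOf x)) hu
  have hinv' := Matrix.nonsing_inv_mul (Gd q p.t' (lamOf x)) hu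
  have e3 : Matrix.trace (RV V p (lamOf x) a * Tw N l p)
      = Matrix.trace (TT V p (lamOf x) a * Tw N l p) := by
    generalize hG : Gd q p.t' (lamOf x) = G at *
    have : RV V p (lamOf x) a * Tw N l p = G * (TT V p (lamOf x) a * Tw N l p * G⁻¹) := by
      rw [← mul_assoc, ← mul_assoc, ← e1, mul_assoc _ G, ← e2, ← mul_assoc, mul_assoc _ G, hinv,
        mul_one]
    rw [this, Matrix.trace_mul_comm, mul_assoc, hinv', mul_one]
  rw [TH_apply, step3, e3, step4]
  unfold opF
  refine Finset.sum_congr rfl fun j _ => ?_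
  rw [TH_apply, lamOf_addE]

end

end Pool.Agent.Helper48.SQC
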